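import Pool.Agent.H69.LQ.Lib

/-!
# MP_8f7db2_an, board `lqm_modules`, row CM: the Gaussian potential has a maximum
-/

set_option autoImplicit false

open MeasureTheory Metric Set Filter
open scoped ENNReal
open Pool.Agent.H85.LK (E adm lam Ann)
open Pool.Agent.H69.LQ

namespace Pool.Agent.H45.LQ

theorem exp_cont (N : ℕ) (z : E N) : Continuous fun x : E N => Real.exp (-‖x - z‖ ^ 2) := by
  fun_prop

theorem pf_CM : T_CM := by
  intro N Ω _ hΩ hfin hpos
  haveI : IsFiniteMeasure (volume.restrict Ω) :=
    ⟨by rw [Measure.restrict_apply_univ]; exact lt_top_iff_ne_top.2 hfin⟩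
  have hle : ∀ z x : E N, ‖Real.exp (-‖x - z‖ ^ 2)‖ ≤ 1 := by
    intro z x
    rw [Real.norm_eq_abs, abs_of_pos (Real.exp_pos _)]
    exact Real.exp_le_one_iff.2 (neg_nonpos.2 (sq_nonneg _))
  have hint : ∀ z : E N, Integrable (fun x : E N => Real.exp (-‖x - z‖ ^ 2))
      (volume.restrict Ω) := fun z =>
    (integrable_const (1 : ℝ)).mono' (exp_cont N z).aestronglyMeasurable
      (Eventually.of_forall (hle z))
  have hcont : Continuous fun z : E N => ∫ x in Ω, Real.exp (-‖x - z‖ ^ 2) := by
    refine continuous_of_dominated (bound := fun _ => (1 : ℝ))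
      (fun z => (exp_cont N z).aestronglyMeasurable)
      (fun z => Eventually.of_forall (hle z)) (integrable_const 1)
      (Eventually.of_forall fun x => ?_)
    fun_prop
  have hlim : Tendsto (fun z : E N => ∫ x in Ω, Real.exp (-‖x - z‖ ^ 2)) (cocompact (E N))
      (nhds 0) := by
    have h0 : (0 : ℝ) = ∫ _ in Ω, (0 : ℝ) := by simp
    rw [h0]
    haveI : (cocompact (E N)).IsCountablyGenerated := by
      rw [← Metric.cobounded_eq_cocompact, ← comap_norm_atTop]
      infer_instance
    refine tendsto_integral_filter_of_dominated_convergence (fun _ => (1 : ℝ))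
      (Eventually.of_forall fun z => (exp_cont N z).aestronglyMeasurable)
      (Eventually.of_forall fun z => Eventually.of_forall (hle z)) (integrable_const 1)
      (Eventually.of_forall fun x => ?_)
    have h1 : Tendsto (fun z : E N => x - z) (cocompact (E N)) (cocompact (E N)) :=
      (Homeomorph.subLeft x).isClosedEmbedding.tendsto_cocompact
    have h2 : Tendsto (fun z : E N => ‖x - z‖) (cocompact (E N)) atTop :=
      (tendsto_norm_cocompact_atTop (E := E N)).comp h1
    have h3 : Tendsto (fun z : E N => ‖x - z‖ ^ 2) (cocompact (E N)) atTop :=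
      (tendsto_pow_atTop two_ne_zero).comp h2
    exact Real.tendsto_exp_atBot.comp (tendsto_neg_atTop_atBot.comp h3)
  have h0pos : 0 < ∫ x in Ω, Real.exp (-‖x - (0 : E N)‖ ^ 2) := by
    rw [integral_pos_iff_support_of_nonneg (fun x => (Real.exp_pos _).le) (hint 0)]
    have hs : Function.support (fun x : E N => Real.exp (-‖x - 0‖ ^ 2)) = univ := by
      ext x
      simp [Real.exp_ne_zero]
    rw [hs, Measure.restrict_apply_univ]
    exact hpos
  exact hcont.exists_forall_ge' 0 ((hlim.eventually_lt_const h0pos).mono fun z hz => hz.le)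

end Pool.Agent.H45.LQ
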